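import Pool.Agent.helper43.DHB.SpecB

/-!
# Row bTCH of project d2: touching (helper51)
-/

set_option autoImplicit false

open Filter Topology MeasureTheory
open scoped commutatorElement

namespace Pool.Agent.helper90.DH

open Pool.Agent.helper64.D2

/-- a set of numbers with pairwise differences at most `2`. -/
theorem bTCH_card (n : ℕ) (A : Set (Fin n)) (h : ∀ a ∈ A, ∀ b ∈ A, (a : ℕ) ≤ (b : ℕ) + 2) : Set.ncard A ≤ 3 := by
  rcases A.eq_empty_or_nonempty with h0 | h0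
  · simp [h0]
  · obtain ⟨a, ha, hmin⟩ := Set.exists_min_image A id (Set.toFinite A) h0
    have hsub : (fun x : Fin n => (x : ℕ)) '' A ⊆ (Finset.Icc (a : ℕ) (a + 2) : Set ℕ) := by
      rintro _ ⟨b, hb, rfl⟩
      rw [Finset.mem_coe, Finset.mem_Icc]
      exact ⟨hmin b hb, h b hb a ha⟩
    rw [← Set.ncard_image_of_injective A Fin.val_injective]
    calc Set.ncard ((fun x : Fin n => (x : ℕ)) '' A) ≤ Set.ncard (Finset.Icc (a : ℕ) (a + 2) : Set ℕ) := Set.ncard_le_ncard hsub (Finset.finite_toSet _)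
      _ = 3 := by rw [Set.ncard_coe_finset, Nat.card_Icc]; omega

/-- cells in the unit `h = 1/2^u`. -/
theorem bTCH_cell (u : ℕ) (k : ℕ) (y : ℝ) (hy : y ∈ cell u ((k : ℕ) : ℤ)) : (k : ℝ) * (1 / 2 ^ u) ≤ y ∧ y < ((k : ℝ) + 1) * (1 / 2 ^ u) := by
  have h1 : (((k : ℤ) : ℝ)) / 2 ^ u ≤ y := hy.1
  have h2 : y < ((((k : ℤ) : ℝ)) + 1) / 2 ^ u := hy.2
  push_cast at h1 h2
  constructor
  · calc (k : ℝ) * (1 / 2 ^ u) = (k : ℝ) / 2 ^ u := by ring
      _ ≤ y := h1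
  · calc y < ((k : ℝ) + 1) / 2 ^ u := h2
      _ = _ := by ring

/-- neighbouring cells. -/
theorem bTCH_near (u k k' : ℕ) (y y' : ℝ) (hy : y ∈ cell u ((k : ℕ) : ℤ)) (hy' : y' ∈ cell u ((k' : ℕ) : ℤ)) (h : |y - y'| < 2 * (1 / 2 ^ u)) : k ≤ k' + 2 := by
  obtain ⟨h1, h2⟩ := bTCH_cell u k y hy
  obtain ⟨h3, h4⟩ := bTCH_cell u k' y' hy'
  have hh : (0 : ℝ) < 1 / 2 ^ u := by positivity
  have h5 := (abs_lt.1 h).2
  have h6 : (k : ℝ) * (1 / 2 ^ u) < ((k' : ℝ) + 3) * (1 / 2 ^ u) := by linarith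
  have h7 : (k : ℝ) < (k' : ℝ) + 3 := lt_of_mul_lt_mul_right h6 hh.le
  have h8 : k < k' + 3 := by exact_mod_cast h7
  omega

/-- the row bTCH. -/
theorem bTCH (hNMF : bNMF_stmt) : bTCH_stmt := by
  intro ι P B u τ hPB hu hτ0 hτ
  obtain ⟨-, -, hbl, -⟩ := hNMF
  obtain ⟨h, hh⟩ : ∃ h : ℝ, h = 1 / 2 ^ u := ⟨_, rfl⟩
  have hh0 : 0 < h := by rw [hh]; positivity
  have hh1 : h ≤ 1 / 256 := by
    rw [hh]
    have : (256 : ℝ) ≤ 2 ^ u := by
      calc (256 : ℝ) = 2 ^ 8 := by norm_num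
        _ ≤ 2 ^ u := pow_le_pow_right₀ (by norm_num) hu
    exact one_div_le_one_div_of_le (by norm_num) this
  have hτh : τ ≤ h / 100 := by
    calc τ ≤ 1 / (100 * 2 ^ u) := hτ
      _ = h / 100 := by rw [hh]; field_simp
  have hPl : ∀ i x y, (99 / 100) * |x - y| ≤ |P i x - P i y| ∧ |P i x - P i y| ≤ (101 / 100) * |x - y| := by
    intro i x y
    have := (hbl (P i) (1 / 100) (by norm_num) (hPB i).1).2.2.2 x y
    constructor <;> linarith [this.1, this.2]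
  have hBl : ∀ i x y, (99 / 100) * |x - y| ≤ |B i x - B i y| ∧ |B i x - B i y| ≤ (101 / 100) * |x - y| := by
    intro i x y
    have := (hbl (B i) (1 / 100) (by norm_num) (hPB i).2).2.2.2 x y
    constructor <;> linarith [this.1, this.2]
  refine ⟨?_, ?_, ?_⟩
  · intro i l
    apply bTCH_card
    rintro j ⟨-, x, hx, θ, hθ, hxj⟩ j' ⟨-, x', hx', θ', hθ', hxj'⟩
    refine bTCH_near u j j' _ _ hxj hxj' ?_
    rw [← hh]
    obtain ⟨a1, a2⟩ := bTCH_cell u l x hx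
    obtain ⟨a3, a4⟩ := bTCH_cell u l x' hx'
    rw [← hh] at a1 a2 a3 a4
    have e1 : |x - x'| ≤ h := by rw [abs_le]; constructor <;> linarith
    have e2 := (hBl i x x').2
    have e3 : |θ - θ'| ≤ τ := by rw [abs_le]; constructor <;> linarith [hθ.1, hθ.2, hθ'.1, hθ'.2]
    have e4 : |(B i x + θ) - (B i x' + θ')| ≤ |B i x - B i x'| + |θ - θ'| := by
      have : (B i x + θ) - (B i x' + θ') = (B i x - B i x') + (θ - θ') := by ring
      rw [this]
      exact abs_add_le _ _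
    have e5 := (hPl i (B i x + θ) (B i x' + θ')).2
    linarith
  · intro i j
    apply bTCH_card
    rintro l ⟨-, x, hx, θ, hθ, hxj⟩ l' ⟨-, x', hx', θ', hθ', hxj'⟩
    refine bTCH_near u l l' _ _ hx hx' ?_
    rw [← hh]
    obtain ⟨a1, a2⟩ := bTCH_cell u j _ hxj
    obtain ⟨a3, a4⟩ := bTCH_cell u j _ hxj'
    rw [← hh] at a1 a2 a3 a4
    have e1 : |P i (B i x + θ) - P i (B i x' + θ')| ≤ h := by rw [abs_le]; constructor <;> linarith
    have e2 := (hPl i (B i x + θ) (B i x' + θ')).1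
    have e3 : |θ - θ'| ≤ τ := by rw [abs_le]; constructor <;> linarith [hθ.1, hθ.2, hθ'.1, hθ'.2]
    have e4 : |B i x - B i x'| ≤ |(B i x + θ) - (B i x' + θ')| + |θ - θ'| := by
      have : B i x - B i x' = ((B i x + θ) - (B i x' + θ')) - (θ - θ') := by ring
      rw [this]
      exact abs_sub _ _
    have e5 := (hBl i x x').1
    have e6 : (99 / 100) * |(B i x + θ) - (B i x' + θ')| ≤ h := e2.trans e1
    nlinarith
  · rintro i l j ⟨⟨z, hz, hz5⟩, x, hx, θ, hθ, hxj⟩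
    obtain ⟨b1, b2⟩ := bTCH_cell u j z hz
    obtain ⟨b3, b4⟩ := bTCH_cell u l x hx
    obtain ⟨b5, b6⟩ := bTCH_cell u j _ hxj
    rw [← hh] at b1 b2 b3 b4 b5 b6
    obtain ⟨cl, hcl⟩ : ∃ cl : ℝ, cl = (((l : ℕ) : ℝ) + 1 / 2) / 2 ^ u := ⟨_, rfl⟩
    obtain ⟨cj, hcj⟩ : ∃ cj : ℝ, cj = (((j : ℕ) : ℝ) + 1 / 2) / 2 ^ u := ⟨_, rfl⟩
    have hcl' : cl = ((l : ℕ) : ℝ) * h + h / 2 := by rw [hcl, hh]; ring
    have hcj' : cj = ((j : ℕ) : ℝ) * h + h / 2 := by rw [hcj, hh]; ring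
    rw [← hcl, ← hcj]
    have hd1 := abs_le.1 ((hPB i).1.ds (B i x + θ))
    have hd2 := abs_le.1 ((hPB i).2.ds x)
    have f1 : |cl - x| ≤ h / 2 := by rw [abs_le]; constructor <;> linarith
    have f2 := abs_le.1 f1
    refine ⟨⟨?_, ?_⟩, ⟨?_, ?_⟩, ?_⟩
    · linarith [hz5.1, hθ.1, hθ.2]
    · linarith [hz5.2, hθ.1, hθ.2]
    · linarith [hz5.1]
    · linarith [hz5.2]
    · have e1 := (hBl i cl x).2
      have e2 := (hPl i (B i cl) (B i x + θ)).2
      have e3 : |B i cl - (B i x + θ)| ≤ |B i cl - B i x| + |θ| := by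
        have : B i cl - (B i x + θ) = (B i cl - B i x) - θ := by ring
        rw [this]
        exact abs_sub _ _
      have e4 : |θ| ≤ τ := by rw [abs_le]; constructor <;> linarith [hθ.1, hθ.2]
      have e5 : |P i (B i x + θ) - cj| ≤ h / 2 := by rw [abs_le]; constructor <;> linarith
      have e6 : |P i (B i cl) - cj| ≤ |P i (B i cl) - P i (B i x + θ)| + |P i (B i x + θ) - cj| := abs_sub_le _ _ _
      have e7 : (2 : ℝ) / 2 ^ u = 2 * h := by rw [hh]; ring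
      rw [e7]
      linarith

end Pool.Agent.helper90.DH
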